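import Pool.Agent.N321.KT.Defs

/-!
# Project KT: jets of conservation laws
-/

set_option autoImplicit false

namespace Pool.Agent.N663.KT.JET

open Filter Topology Pool.Agent.N321.KT

set_option linter.unusedSectionVars false

variable {ι : Type} [Fintype ι] [DecidableEq ι] {W : Set (ι → ℝ)}

/-- smooth on `W` -/
abbrev Sm (W : Set (ι → ℝ)) (f : (ι → ℝ) → ℝ) : Prop := ContDiffOn ℝ (⊤ : ℕ∞) f W

theorem Sm.at (hW : IsOpen W) {f : (ι → ℝ) → ℝ} (hf : Sm W f) {x : ι → ℝ} (hx : x ∈ W) :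
    ContDiffAt ℝ (⊤ : ℕ∞) f x := hf.contDiffAt (hW.mem_nhds hx)

theorem Sm.diffAt (hW : IsOpen W) {f : (ι → ℝ) → ℝ} (hf : Sm W f) {x : ι → ℝ} (hx : x ∈ W) :
    DifferentiableAt ℝ f x := (Sm.at hW hf hx).differentiableAt (by simp)

theorem sm_fderiv (hW : IsOpen W) {f : (ι → ℝ) → ℝ} (hf : Sm W f) :
    ContDiffOn ℝ (⊤ : ℕ∞) (fderiv ℝ f) W := hf.fderiv_of_isOpen hW (by simp)

theorem sm_pd (hW : IsOpen W) (i : ι) {f : (ι → ℝ) → ℝ} (hf : Sm W f) : Sm W (pd i f) :=
  (sm_fderiv hW hf).clm_apply contDiffOn_const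

theorem pd_congr (hW : IsOpen W) (i : ι) {f g : (ι → ℝ) → ℝ} (h : ∀ x ∈ W, f x = g x) :
    ∀ x ∈ W, pd i f x = pd i g x := by
  intro x hx
  have h1 : f =ᶠ[𝓝 x] g := by
    filter_upwards [hW.mem_nhds hx] with y hy using h y hy
  simp only [pd, h1.fderiv_eq]

theorem jet_congr (hW : IsOpen W) (w : List ι) : ∀ {f g : (ι → ℝ) → ℝ}, (∀ x ∈ W, f x = g x) →
    ∀ x ∈ W, jet f x w = jet g x w := by
  induction w with
  | nil => intro f g h x hx; exact h x hx
  | cons i w ih => intro f g h x hx; exact ih (pd_congr hW i h) x hx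

theorem pd_pd (hW : IsOpen W) (i j : ι) {f : (ι → ℝ) → ℝ} (hf : Sm W f) {x : ι → ℝ} (hx : x ∈ W) :
    pd i (pd j f) x = fderiv ℝ (fderiv ℝ f) x (Pi.single i 1) (Pi.single j 1) := by
  have h1 : DifferentiableAt ℝ (fderiv ℝ f) x :=
    ((sm_fderiv hW hf).contDiffAt (hW.mem_nhds hx)).differentiableAt (by simp)
  have h2 : ∀ e e' : ι → ℝ, fderiv ℝ (fun y => fderiv ℝ f y e) x e' =
      fderiv ℝ (fderiv ℝ f) x e' e := by
    intro e e'
    rw [fderiv_clm_apply h1 (differentiableAt_const e)]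
    simp
  exact h2 _ _

theorem pd_comm (hW : IsOpen W) (i j : ι) {f : (ι → ℝ) → ℝ} (hf : Sm W f) :
    ∀ x ∈ W, pd i (pd j f) x = pd j (pd i f) x := by
  intro x hx
  rw [pd_pd hW i j hf hx, pd_pd hW j i hf hx]
  refine ((Sm.at hW hf hx).isSymmSndFDerivAt ?_).eq _ _
  rw [minSmoothness_of_isRCLikeNormedField]
  exact WithTop.coe_le_coe.2 (le_top : (2 : ℕ∞) ≤ ⊤)

theorem jet_perm (hW : IsOpen W) {w w' : List ι} (h : w.Perm w') : ∀ {f : (ι → ℝ) → ℝ}, Sm W f →
    ∀ x ∈ W, jet f x w = jet f x w' := by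
  induction h with
  | nil => intro f _ x _; rfl
  | cons i _ ih => intro f hf x hx; exact ih (sm_pd hW i hf) x hx
  | swap i j w =>
    intro f hf x hx
    exact jet_congr hW w (pd_comm hW i j hf) x hx
  | trans _ _ ih1 ih2 => intro f hf x hx; exact (ih1 hf x hx).trans (ih2 hf x hx)

theorem jet_add (hW : IsOpen W) (w : List ι) : ∀ {f g : (ι → ℝ) → ℝ}, Sm W f → Sm W g →
    ∀ x ∈ W, jet (fun y => f y + g y) x w = jet f x w + jet g x w := by
  induction w with
  | nil => intro f g _ _ x _; rfl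
  | cons i w ih =>
    intro f g hf hg x hx
    have h1 : ∀ x ∈ W, pd i (fun y => f y + g y) x = (fun y => pd i f y + pd i g y) x := by
      intro x hx
      simp only [pd]
      rw [fderiv_fun_add (Sm.diffAt hW hf hx) (Sm.diffAt hW hg hx)]
      simp
    exact (jet_congr hW w h1 x hx).trans (ih (sm_pd hW i hf) (sm_pd hW i hg) x hx)

theorem jet_zero (w : List ι) (x : ι → ℝ) : jet (fun _ : ι → ℝ => (0 : ℝ)) x w = 0 := by
  induction w with
  | nil => rfl
  | cons i w ih =>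
    have h1 : pd i (fun _ : ι → ℝ => (0 : ℝ)) = fun _ => 0 := by
      funext y
      simp [pd]
    change jet (pd i (fun _ : ι → ℝ => (0 : ℝ))) x w = 0
    rw [h1]
    exact ih

theorem sm_sum {κ : Type} (S : Finset κ) {F : κ → (ι → ℝ) → ℝ} (hF : ∀ s, Sm W (F s)) :
    Sm W (fun y => ∑ s ∈ S, F s y) := ContDiffOn.sum fun s _ => hF s

theorem jet_sum (hW : IsOpen W) {κ : Type} (S : Finset κ) {F : κ → (ι → ℝ) → ℝ}
    (hF : ∀ s, Sm W (F s)) (w : List ι) {x : ι → ℝ} (hx : x ∈ W) :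
    jet (fun y => ∑ s ∈ S, F s y) x w = ∑ s ∈ S, jet (F s) x w := by
  classical
  induction S using Finset.induction_on with
  | empty => simpa using jet_zero w x
  | insert a S ha ih =>
    have h1 : (fun y => ∑ s ∈ insert a S, F s y) = fun y => F a y + ∑ s ∈ S, F s y := by
      funext y
      rw [Finset.sum_insert ha]
    rw [h1, jet_add hW w (hF a) (sm_sum S hF) x hx, ih, Finset.sum_insert ha]

theorem jet_mul (hW : IsOpen W) (w : List ι) : ∀ {f g : (ι → ℝ) → ℝ}, Sm W f → Sm W g →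
    ∀ x ∈ W, jet (fun y => f y * g y) x w = mul (jet f x) (jet g x) w := by
  induction w with
  | nil => intro f g _ _ x _; rfl
  | cons i w ih =>
    intro f g hf hg x hx
    have h1 : ∀ x ∈ W, pd i (fun y => f y * g y) x = (fun y => pd i f y * g y + f y * pd i g y) x := by
      intro x hx
      simp only [pd]
      rw [fderiv_fun_mul (Sm.diffAt hW hf hx) (Sm.diffAt hW hg hx)]
      simp
      ring
    have h2 : jet (pd i (fun y => f y * g y)) x w = _ := jet_congr hW w h1 x hx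
    change jet (pd i (fun y => f y * g y)) x w = _
    rw [h2, jet_add hW w ((sm_pd hW i hf).mul hg) (hf.mul (sm_pd hW i hg)) x hx,
      ih (sm_pd hW i hf) hg x hx, ih hf (sm_pd hW i hg) x hx]
    rfl

theorem t : Pool.Agent.N321.KT.S_JET := by
  intro ι _ _ W K f hW hK hf hL x hx
  refine ⟨fun w w' h => jet_perm hW h hf x hx, fun w i j => ?_⟩
  have h1 : ∀ (j : ι) (w : List ι), th (fun s j => jet (fun y => K y s j) x) (jet f x) j w =
      jet (fun y => ∑ s, K y s j * pd s f y) x w := by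
    intro j w
    rw [jet_sum hW Finset.univ (F := fun s y => K y s j * pd s f y)
      (fun s => (hK s j).mul (sm_pd hW s hf)) w hx]
    simp only [th]
    refine Finset.sum_congr rfl fun s _ => ?_
    rw [jet_mul hW w (hK s j) (sm_pd hW s hf) x hx]
    rfl
  simp only [om, h1]
  rw [sub_eq_zero]
  exact jet_congr hW w (fun y hy => hL y hy i j) x hx

end Pool.Agent.N663.KT.JET
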